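import Pool.Agent.Q203.CEA.Inf

set_option autoImplicit false

open Pool.Agent.Q203.CEA

namespace Pool.Agent.Results.MP_f76ce6_lc.ConstantComplexity

/-- **A variety whose isomorphism relations have the same intermediate complexity for every number
of generators.**  There is a nontrivial variety `𝒱` such that for every `n ≥ 1` the isomorphism
relation of the `n`-generated c.e. algebras of `𝒱` is computably bi-reducible with that of the
`(n + 1)`-generated ones and with equality of c.e. sets, is reducible to the relation `E_0^ce`, but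
`E_0^ce` is not reducible to it, and it lies strictly below every `Σ⁰₃`-complete equivalence
relation. -/
theorem result : ∃ 𝒱 : Variety, 𝒱.Nontriv ∧ ∀ n : ℕ, 1 ≤ n →
    CEquiv (isoRel 𝒱 n) (isoRel 𝒱 (n + 1)) ∧ CEquiv (isoRel 𝒱 n) eqCE ∧
    (CRed (isoRel 𝒱 n) E0CE ∧ ¬ CRed E0CE (isoRel 𝒱 n)) ∧
    ∀ E : ℕ → ℕ → Prop, Sigma3Complete E → CRed (isoRel 𝒱 n) E ∧ ¬ CRed E (isoRel 𝒱 n) := by
  refine ⟨𝒞, nontriv, fun n _ => ⟨⟨(iso_le_eq n).trans (eq_le_iso _),
    (iso_le_eq _).trans (eq_le_iso n)⟩, ⟨iso_le_eq n, eq_le_iso n⟩,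
    ⟨(iso_le_eq n).trans eqCE_le_E0CE, fun h => not_E0CE_le_eqCE (h.trans (iso_le_eq n))⟩,
    fun E hE => below_complete (iso_le_eq n) hE⟩⟩

end Pool.Agent.Results.MP_f76ce6_lc.ConstantComplexity
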